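import Mathlib

open Set Filter Topology

namespace Pool.Agent.KS6_49.TP

/-- Cantor set in the line -/
def IsCantor (K : Set ℝ) : Prop :=
  K.Nonempty ∧ IsCompact K ∧ IsTotallyDisconnected K ∧ Preperfect K

/-- `(p, q)` is a bounded gap of `K` -/
def Gap (K : Set ℝ) (p q : ℝ) : Prop := p ∈ K ∧ q ∈ K ∧ p < q ∧ ∀ z ∈ K, z ≤ p ∨ q ≤ z

/-- right end of the bridge at the right endpoint `q` of the gap `(p, q)` -/
noncomputable def rightEnd (K : Set ℝ) (p q : ℝ) : ℝ :=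
  sInf (insert (sSup K) {v | ∃ w, Gap K v w ∧ q ≤ v ∧ q - p ≤ w - v})

/-- left end of the bridge at the left endpoint `p` of the gap `(p, q)` -/
noncomputable def leftEnd (K : Set ℝ) (p q : ℝ) : ℝ :=
  sSup (insert (sInf K) {w | ∃ v, Gap K v w ∧ w ≤ p ∧ q - p ≤ w - v})

/-- Newhouse thickness -/
noncomputable def thickness (K : Set ℝ) : ℝ :=
  sInf {x | ∃ p q, Gap K p q ∧
    (x = (rightEnd K p q - q) / (q - p) ∨ x = (p - leftEnd K p q) / (q - p))}

def Sep (K : Set ℝ) (τ : ℝ) : Prop := ∀ p q v w, Gap K p q → Gap K v w →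
  (q ≤ v → v < q + τ * (q - p) → w - v < q - p) ∧ (w ≤ p → p - τ * (q - p) < w → w - v < q - p)

def Good (K : Set ℝ) (τ l r : ℝ) : Prop := l ∈ K ∧ r ∈ K ∧ l < r ∧
  ∀ p q, Gap K p q → l ≤ p → q ≤ r → l ≤ p - τ * (q - p) ∧ q + τ * (q - p) ≤ r

lemma find {K : Set ℝ} (hK : IsClosed K) {l r : ℝ} (hl : l ∈ K) (hr : r ∈ K) (hlr : l ≤ r)
    (g : ℝ → ℝ) (hg : Continuous g) (hm : MonotoneOn g (Icc l r)) (h1 : g l ≤ 0) (h2 : 0 ≤ g r)
    (h0 : ∀ x ∈ K, x ∈ Icc l r → g x ≠ 0) :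
    ∃ p q, Gap K p q ∧ l ≤ p ∧ q ≤ r ∧ g p ≤ 0 ∧ 0 ≤ g q := by
  obtain ⟨p, ⟨⟨p1, p2⟩, p3⟩, p4⟩ := ((isCompact_Icc.inter_left hK).inter_right
    (isClosed_le hg continuous_const : IsClosed {x | g x ≤ 0})).exists_isGreatest
    ⟨l, ⟨hl, le_rfl, hlr⟩, h1⟩
  obtain ⟨q, ⟨⟨q1, q2⟩, q3⟩, q4⟩ := ((isCompact_Icc.inter_left hK).inter_right
    (isClosed_le continuous_const hg : IsClosed {x | 0 ≤ g x})).exists_isLeast
    ⟨r, ⟨hr, hlr, le_rfl⟩, h2⟩
  have hpq : p < q := by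
    by_contra h
    exact h0 q q1 q2 (le_antisymm ((hm q2 p2 (not_lt.1 h)).trans p3) q3)
  refine ⟨p, q, ⟨p1, q1, hpq, fun z hz => ?_⟩, p2.1, q2.2, p3, q3⟩
  by_contra h
  push Not at h
  have hz2 : z ∈ Icc l r := ⟨by linarith [p2.1], by linarith [q2.2]⟩
  rcases le_total (g z) 0 with h3 | h3
  · exact absurd (p4 ⟨⟨hz, hz2⟩, h3⟩) (not_le.2 h.1)
  · exact absurd (q4 ⟨⟨hz, hz2⟩, h3⟩) (not_le.2 h.2)

def WG (K : Set ℝ) (l r : ℝ) : Set (ℝ × ℝ) :=
  {x | x.1 ∈ K ∧ x.2 ∈ K ∧ l ≤ x.1 ∧ x.1 ≤ x.2 ∧ x.2 ≤ r ∧ ∀ z ∈ K, z ≤ x.1 ∨ x.2 ≤ z}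

lemma WG_compact {K : Set ℝ} (hK : IsClosed K) (l r : ℝ) : IsCompact (WG K l r) := by
  refine (isCompact_Icc (a := l) (b := r)).prod (isCompact_Icc (a := l) (b := r))
    |>.of_isClosed_subset ?_ fun x hx =>
      ⟨⟨hx.2.2.1, hx.2.2.2.1.trans hx.2.2.2.2.1⟩, ⟨hx.2.2.1.trans hx.2.2.2.1, hx.2.2.2.2.1⟩⟩
  refine (hK.preimage continuous_fst).and ((hK.preimage continuous_snd).and
    ((isClosed_le continuous_const continuous_fst).and
    ((isClosed_le continuous_fst continuous_snd).and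
    ((isClosed_le continuous_snd continuous_const).and ?_))))
  simp only [ofPred_forall]
  exact isClosed_iInter fun z => isClosed_iInter fun _ =>
    (isClosed_le continuous_const continuous_fst).union (isClosed_le continuous_snd continuous_const)

def Link (K : Set ℝ) (l r : ℝ) (F : ℝ → ℝ → ℝ) : Set ((ℝ × ℝ) × (ℝ × ℝ)) :=
  (WG K l r ×ˢ WG K l r) ∩ {x | F x.1.1 x.2.1 ≤ 0 ∧ 0 ≤ F x.1.2 x.2.1 ∧ F x.1.2 x.2.2 ≤ 0}

def len (x : (ℝ × ℝ) × (ℝ × ℝ)) : ℝ := (x.1.2 - x.1.1) + (x.2.2 - x.2.1)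

def Rate (l r c C : ℝ) (g : ℝ → ℝ) : Prop :=
  ∀ x ∈ Icc l r, ∀ y ∈ Icc l r, x ≤ y → c * (y - x) ≤ g y - g x ∧ g y - g x ≤ C * (y - x)

lemma Rate.mono {l r c C : ℝ} {g : ℝ → ℝ} (h : Rate l r c C g) (hc : 0 < c) :
    MonotoneOn g (Icc l r) := fun x hx y hy hxy => by
  have := (h x hx y hy hxy).1
  nlinarith

lemma step {K : Set ℝ} (hK : IsClosed K) {τ l r c1 C1 c2 C2 : ℝ} (hτ : 0 < τ) (hS : Sep K τ)
    (hG : Good K τ l r) {F : ℝ → ℝ → ℝ} (hF : Continuous fun x : ℝ × ℝ => F x.1 x.2)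
    (k1 : 0 < c1) (k2 : 0 < c2) (k3 : C1 * C2 < τ ^ 2 * (c1 * c2))
    (r1 : ∀ v ∈ Icc l r, Rate l r c1 C1 fun u => F u v)
    (r2 : ∀ u ∈ Icc l r, Rate l r c2 C2 fun v => -F u v)
    (h0 : ∀ u ∈ K, u ∈ Icc l r → ∀ v ∈ K, v ∈ Icc l r → F u v ≠ 0)
    (hne : (Link K l r F).Nonempty) :
    ∃ x ∈ Link K l r F, (∀ y ∈ Link K l r F, len x ≤ len y) ∧
      ∃ y ∈ Link K l r (fun v u => -F u v), len y < len x := by
  have hc : IsCompact (Link K l r F) := by
    refine ((WG_compact hK l r).prod (WG_compact hK l r)).inter_right ?_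
    have f1 : Continuous fun x : (ℝ × ℝ) × (ℝ × ℝ) => F x.1.1 x.2.1 :=
      hF.comp (f := fun x : (ℝ × ℝ) × (ℝ × ℝ) => (x.1.1, x.2.1)) (by fun_prop)
    have f2 : Continuous fun x : (ℝ × ℝ) × (ℝ × ℝ) => F x.1.2 x.2.1 :=
      hF.comp (f := fun x : (ℝ × ℝ) × (ℝ × ℝ) => (x.1.2, x.2.1)) (by fun_prop)
    have f3 : Continuous fun x : (ℝ × ℝ) × (ℝ × ℝ) => F x.1.2 x.2.2 :=
      hF.comp (f := fun x : (ℝ × ℝ) × (ℝ × ℝ) => (x.1.2, x.2.2)) (by fun_prop)
    exact (isClosed_le f1 continuous_const).and ((isClosed_le continuous_const f2).and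
      (isClosed_le f3 continuous_const))
  obtain ⟨x, hx, hmin⟩ := hc.exists_isMinOn hne (f := len) (by unfold len; fun_prop)
  refine ⟨x, hx, fun y hy => hmin hy, ?_⟩
  obtain ⟨⟨u1, u2⟩, ⟨v1, v2⟩⟩ := x
  obtain ⟨⟨⟨a1, a2, a3, a4, a5, a6⟩, ⟨b1, b2, b3, b4, b5, b6⟩⟩, e1, e2, e3⟩ := hx
  simp only at a1 a2 a3 a4 a5 a6 b1 b2 b3 b4 b5 b6 e1 e2 e3
  have iu1 : u1 ∈ Icc l r := ⟨a3, a4.trans a5⟩
  have iu2 : u2 ∈ Icc l r := ⟨a3.trans a4, a5⟩
  have iv1 : v1 ∈ Icc l r := ⟨b3, b4.trans b5⟩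
  have iv2 : v2 ∈ Icc l r := ⟨b3.trans b4, b5⟩
  have hu : u1 < u2 := lt_of_le_of_ne a4 fun h => by
    subst h; exact h0 _ a1 iu1 _ b1 iv1 (le_antisymm e1 e2)
  have hv : v1 < v2 := lt_of_le_of_ne b4 fun h => by
    subst h; exact h0 _ a2 iu2 _ b1 iv1 (le_antisymm e3 e2)
  have gu : Gap K u1 u2 := ⟨a1, a2, hu, a6⟩
  have gv : Gap K v1 v2 := ⟨b1, b2, hv, b6⟩
  have pu := mul_pos hτ (sub_pos.2 hu)
  have pv := mul_pos hτ (sub_pos.2 hv)
  by_cases hcase : C2 * (v2 - v1) < c1 * (τ * (u2 - u1))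
  · have m1 := (hG.2.2.2 _ _ gu a3 a5).2
    have im : u2 + τ * (u2 - u1) ∈ Icc l r := ⟨by linarith [iu2.1], m1⟩
    have m2 := (r1 v2 iv2 _ iu2 _ im (by linarith)).1
    have m3 := (r2 u2 iu2 _ iv1 _ iv2 b4).2
    simp only [add_sub_cancel_left] at m2 m3
    have m4 : 0 < F (u2 + τ * (u2 - u1)) v2 := by linarith
    have mo := (r1 v2 iv2).mono k1
    obtain ⟨p, q, gp, p1, p2, p3, p4⟩ := find hK a2 hG.2.1 a5 (fun u => F u v2)
      (hF.comp (f := fun u => (u, v2)) (by fun_prop)) (mo.mono (Icc_subset_Icc_left iu2.1)) e3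
      (m4.le.trans (mo im ⟨hG.2.2.1.le, le_rfl⟩ m1))
      (fun x hx hx' => h0 x hx ⟨iu2.1.trans hx'.1, hx'.2⟩ v2 b2 iv2)
    have ip : p ∈ Icc l r := ⟨iu2.1.trans p1, gp.2.2.1.le.trans p2⟩
    have m5 : p < u2 + τ * (u2 - u1) := by
      by_contra h
      have := mo im ip (not_lt.1 h)
      simp only at this p3; linarith
    have m6 := (hS _ _ _ _ gu gp).1 p1 m5
    have m7 := (r1 v1 iv1).mono k1 iu2 ip p1
    simp only at m7 p3 p4
    refine ⟨((v1, v2), (p, q)), ⟨⟨⟨b1, b2, b3, b4, b5, b6⟩,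
      ⟨gp.1, gp.2.1, ip.1, gp.2.2.1.le, p2, gp.2.2.2⟩⟩, ?_, ?_, ?_⟩, ?_⟩ <;>
      simp only [len] <;> linarith
  · have hC1 : c1 ≤ C1 := by
      have := r1 v1 iv1 _ iu1 _ iu2 a4
      nlinarith [this.1, this.2]
    have hC2 : c2 ≤ C2 := by
      have := r2 u1 iu1 _ iv1 _ iv2 b4
      nlinarith [this.1, this.2]
    have hcase2 : C1 * (u2 - u1) < c2 * (τ * (v2 - v1)) := by
      by_contra h
      have := mul_le_mul (not_lt.1 hcase) (not_lt.1 h) (by positivity)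
        (mul_nonneg (by linarith) (by linarith))
      nlinarith [mul_pos (sub_pos.2 hu) (sub_pos.2 hv)]
    have m1 := (hG.2.2.2 _ _ gv b3 b5).1
    have im : v1 - τ * (v2 - v1) ∈ Icc l r := ⟨m1, by linarith [iv1.2]⟩
    have m2 := (r2 u1 iu1 _ im _ iv1 (by linarith)).1
    have m3 := (r1 v1 iv1 _ iu1 _ iu2 a4).2
    simp only [sub_sub_cancel] at m2 m3
    have m4 : -F u1 (v1 - τ * (v2 - v1)) < 0 := by linarith
    have mo := (r2 u1 iu1).mono k2
    obtain ⟨p, q, gp, p1, p2, p3, p4⟩ := find hK hG.1 b1 b3 (fun v => -F u1 v)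
      (hF.comp (f := fun v => (u1, v)) (by fun_prop)).neg (mo.mono (Icc_subset_Icc_right iv1.2))
      ((mo ⟨le_rfl, hG.2.2.1.le⟩ im m1).trans m4.le) (by simpa using e1)
      (fun x hx hx' => neg_ne_zero.2 (h0 u1 a1 iu1 x hx ⟨hx'.1, hx'.2.trans iv1.2⟩))
    have iq : q ∈ Icc l r := ⟨p1.trans gp.2.2.1.le, p2.trans iv1.2⟩
    have m5 : v1 - τ * (v2 - v1) < q := by
      by_contra h
      have := mo iq im (not_lt.1 h)
      simp only at this p4; linarith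
    have m6 := (hS _ _ _ _ gv gp).2 p2 m5
    have m7 := (r2 u2 iu2).mono k2 iq iv1 p2
    simp only at m7 p3 p4
    refine ⟨((p, q), (u1, u2)), ⟨⟨⟨gp.1, gp.2.1, p1, gp.2.2.1.le, iq.2, gp.2.2.2⟩,
      ⟨a1, a2, a3, a4, a5, a6⟩⟩, ?_, ?_, ?_⟩, ?_⟩ <;>
      simp only [len] <;> linarith

lemma gaplemma {K : Set ℝ} (hK : IsClosed K) {τ l r c1 C1 c2 C2 : ℝ} (hτ : 0 < τ) (hS : Sep K τ)
    (hG : Good K τ l r) {F : ℝ → ℝ → ℝ} (hF : Continuous fun x : ℝ × ℝ => F x.1 x.2)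
    (k1 : 0 < c1) (k2 : 0 < c2) (k3 : C1 * C2 < τ ^ 2 * (c1 * c2))
    (r1 : ∀ v ∈ Icc l r, Rate l r c1 C1 fun u => F u v)
    (r2 : ∀ u ∈ Icc l r, Rate l r c2 C2 fun v => -F u v)
    (e1 : 0 ≤ F l l) (e2 : F l r ≤ 0) (e3 : 0 ≤ F r r) :
    ∃ u ∈ K, u ∈ Icc l r ∧ ∃ v ∈ K, v ∈ Icc l r ∧ F u v = 0 := by
  by_contra h0
  push Not at h0
  have il : l ∈ Icc l r := ⟨le_rfl, hG.2.2.1.le⟩
  have ir : r ∈ Icc l r := ⟨hG.2.2.1.le, le_rfl⟩
  obtain ⟨p, q, gp, p1, p2, p3, p4⟩ := find hK hG.1 hG.2.1 hG.2.2.1.le (fun u => F u r)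
    (hF.comp (f := fun u => (u, r)) (by fun_prop)) ((r1 r ir).mono k1) e2 e3
    (fun x hx hx' => h0 x hx hx' r hG.2.1 ir)
  have ip : p ∈ Icc l r := ⟨p1, gp.2.2.1.le.trans p2⟩
  have iq : q ∈ Icc l r := ⟨p1.trans gp.2.2.1.le, p2⟩
  have m1 := (r1 l il).mono k1 il ip p1
  obtain ⟨v, w, gv, v1, v2, v3, v4⟩ := find hK hG.1 hG.2.1 hG.2.2.1.le (fun v => -F p v)
    (hF.comp (f := fun v => (p, v)) (by fun_prop)).neg ((r2 p ip).mono k2)
    (by simp only at m1 ⊢; linarith) (by simpa using p3)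
    (fun x hx hx' => neg_ne_zero.2 (h0 p gp.1 ip x hx hx'))
  have m2 := (r2 q iq).mono k2 ⟨v1.trans gv.2.2.1.le, v2⟩ ir v2
  obtain ⟨x, hx, xmin, y, hy, hyx⟩ := step hK hτ hS hG (F := fun v u => -F u v)
    (C1 := C2) (C2 := C1)
    (hF.comp continuous_swap).neg k2 k1 (by nlinarith) r2 (by simpa using r1)
    (fun v hv iv u hu iu => neg_ne_zero.2 (h0 u hu iu v hv iv))
    ⟨((v, w), (p, q)), ⟨⟨gv.1, gv.2.1, v1, gv.2.2.1.le, v2, gv.2.2.2⟩,
      ⟨gp.1, gp.2.1, p1, gp.2.2.1.le, p2, gp.2.2.2⟩⟩, v3, v4, by simp only at m2 p4 ⊢; linarith⟩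
  simp only [neg_neg] at hy
  obtain ⟨z, -, zmin, t, ht, htz⟩ := step hK hτ hS hG hF k1 k2 k3 r1 r2 h0 ⟨y, hy⟩
  linarith [zmin y hy, xmin t ht]

lemma of_thick {K : Set ℝ} (hK : IsCantor K) :
    Sep K (thickness K) ∧ Good K (thickness K) (sInf K) (sSup K) := by
  obtain ⟨hne, hc, -, hp⟩ := hK
  have R1 : ∀ p q, Gap K p q → q ≤ rightEnd K p q := fun p q h =>
    le_csInf (insert_nonempty _ _) (by
      rintro v (rfl | ⟨w, -, h1, -⟩)
      · exact le_csSup hc.bddAbove h.2.1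
      · exact h1)
  have L1 : ∀ p q, Gap K p q → leftEnd K p q ≤ p := fun p q h =>
    csSup_le (insert_nonempty _ _) (by
      rintro v (rfl | ⟨w, -, h1, -⟩)
      · exact csInf_le hc.bddBelow h.1
      · exact h1)
  have bdd : BddBelow {x | ∃ p q, Gap K p q ∧
      (x = (rightEnd K p q - q) / (q - p) ∨ x = (p - leftEnd K p q) / (q - p))} := by
    refine ⟨0, ?_⟩
    rintro x ⟨p, q, h, rfl | rfl⟩
    · exact div_nonneg (sub_nonneg.2 (R1 p q h)) (sub_nonneg.2 h.2.2.1.le)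
    · exact div_nonneg (sub_nonneg.2 (L1 p q h)) (sub_nonneg.2 h.2.2.1.le)
  have R2 : ∀ p q, Gap K p q → q + thickness K * (q - p) ≤ rightEnd K p q := fun p q h => by
    have : thickness K ≤ _ := csInf_le bdd ⟨p, q, h, Or.inl rfl⟩
    rw [le_div_iff₀ (sub_pos.2 h.2.2.1)] at this
    linarith
  have L2 : ∀ p q, Gap K p q → leftEnd K p q ≤ p - thickness K * (q - p) := fun p q h => by
    have : thickness K ≤ _ := csInf_le bdd ⟨p, q, h, Or.inr rfl⟩
    rw [le_div_iff₀ (sub_pos.2 h.2.2.1)] at this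
    linarith
  have R3 : ∀ p q, BddBelow (insert (sSup K) {v | ∃ w, Gap K v w ∧ q ≤ v ∧ q - p ≤ w - v}) :=
    fun p q => BddBelow.insert _ ⟨q, fun v ⟨w, h⟩ => h.2.1⟩
  have L3 : ∀ p q, BddAbove (insert (sInf K) {w | ∃ v, Gap K v w ∧ w ≤ p ∧ q - p ≤ w - v}) :=
    fun p q => BddAbove.insert _ ⟨p, fun v ⟨w, h⟩ => h.2.1⟩
  refine ⟨fun p q v w h h' => ⟨fun a b => ?_, fun a b => ?_⟩, hc.sInf_mem hne, hc.sSup_mem hne,
    ?_, fun p q h _ _ => ⟨?_, ?_⟩⟩
  · by_contra hh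
    have : rightEnd K p q ≤ v := csInf_le (R3 p q) (Or.inr ⟨w, h', a, not_lt.1 hh⟩)
    linarith [R2 p q h]
  · by_contra hh
    have : w ≤ leftEnd K p q := le_csSup (L3 p q) (Or.inr ⟨v, h', a, not_lt.1 hh⟩)
    linarith [L2 p q h]
  · obtain ⟨x, hx⟩ := hne
    obtain ⟨y, ⟨-, hy⟩, hxy⟩ := preperfect_iff_nhds.1 hp x hx univ univ_mem
    have a1 := csInf_le hc.bddBelow hx
    have a2 := csInf_le hc.bddBelow hy
    have a3 := le_csSup hc.bddAbove hx
    have a4 := le_csSup hc.bddAbove hy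
    rcases lt_or_gt_of_ne hxy with h | h <;> linarith
  · exact (le_csSup (L3 p q) (Or.inl rfl)).trans (L2 p q h)
  · exact (R2 p q h).trans (csInf_le (R3 p q) (Or.inl rfl))

lemma split {K : Set ℝ} (hK : IsClosed K) (hd : IsTotallyDisconnected K) {τ l r : ℝ} (hτ : 0 < τ)
    (hS : Sep K τ) (hG : Good K τ l r) : ∃ p q, Gap K p q ∧ l ≤ p - τ * (q - p) ∧
      q + τ * (q - p) ≤ r ∧ Good K τ l p ∧ Good K τ q r ∧
      ∀ a b, Gap K a b → l ≤ a → b ≤ r → b - a ≤ q - p := by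
  obtain ⟨z, hz, hz2⟩ := isTotallyDisconnected_iff_lt.1 hd l hG.1 r hG.2.1 hG.2.2.1
  obtain ⟨a, b, gab, a1, a2, -⟩ := find hK hG.1 hG.2.1 hG.2.2.1.le (fun x => x - z)
    (by fun_prop) (fun x _ y _ h => by simpa using h) (by linarith [hz2.1]) (by linarith [hz2.2])
    (fun x hx _ h => hz (sub_eq_zero.1 h ▸ hx))
  have mem : ∀ a b, Gap K a b → l ≤ a → b ≤ r → (a, b) ∈ WG K l r := fun a b h h1 h2 =>
    ⟨h.1, h.2.1, h1, h.2.2.1.le, h2, h.2.2.2⟩
  obtain ⟨⟨p, q⟩, ⟨p1, p2, p3, p4, p5, p6⟩, hmax⟩ := (WG_compact hK l r).exists_isMaxOn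
    ⟨_, mem a b gab a1 a2⟩ (f := fun x => x.2 - x.1) (by fun_prop)
  simp only at p1 p2 p3 p4 p5 p6
  have hm : ∀ a b, Gap K a b → l ≤ a → b ≤ r → b - a ≤ q - p := fun a b h h1 h2 =>
    hmax (mem a b h h1 h2)
  have hpq : p < q := by linarith [hm a b gab a1 a2, gab.2.2.1]
  have g : Gap K p q := ⟨p1, p2, hpq, p6⟩
  obtain ⟨t1, t2⟩ := hG.2.2.2 p q g p3 p5
  have := mul_pos hτ (sub_pos.2 hpq)
  refine ⟨p, q, g, t1, t2, ⟨hG.1, p1, by linarith, fun v w h h1 h2 => ⟨?_, ?_⟩⟩,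
    ⟨p2, hG.2.1, by linarith, fun v w h h1 h2 => ⟨?_, ?_⟩⟩, hm⟩
  · exact (hG.2.2.2 v w h h1 (by linarith)).1
  · by_contra hh
    linarith [(hS v w p q h g).1 h2 (not_le.1 hh), hm v w h h1 (by linarith)]
  · by_contra hh
    linarith [(hS v w p q h g).2 h1 (not_le.1 hh), hm v w h (by linarith) h2]
  · exact (hG.2.2.2 v w h (by linarith) h2).2

lemma small_at {K : Set ℝ} (hK : IsClosed K) (hd : IsTotallyDisconnected K) {τ l r : ℝ}
    (hτ : 0 < τ) (hS : Sep K τ) (hG : Good K τ l r) {x₀ : ℝ} (hx : x₀ ∈ K) (hl : l ≤ x₀)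
    (hr : x₀ ≤ r) {η : ℝ} (hη : 0 < η) :
    ∃ l r, Good K τ l r ∧ l ≤ x₀ ∧ x₀ ≤ r ∧ r - l < η := by
  by_contra H
  push Not at H
  have next : ∀ x : {x : ℝ × ℝ // Good K τ x.1 x.2 ∧ x.1 ≤ x₀ ∧ x₀ ≤ x.2},
      ∃ y : {x : ℝ × ℝ // Good K τ x.1 x.2 ∧ x.1 ≤ x₀ ∧ x₀ ≤ x.2},
        x.1.1 ≤ y.1.1 ∧ y.1.2 ≤ x.1.2 ∧ ∀ a b, Gap K a b → x.1.1 ≤ a → b ≤ x.1.2 →
          y.1.2 - y.1.1 + (b - a) ≤ x.1.2 - x.1.1 := by
    rintro ⟨⟨a, b⟩, hab, ha, hb⟩
    simp only at hab ha hb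
    obtain ⟨p, q, g, t1, t2, gl, gr, hm⟩ := split hK hd hτ hS hab
    have hpq := g.2.2.1
    have hlp := gl.2.2.1
    have hqr := gr.2.2.1
    rcases g.2.2.2 x₀ hx with h | h
    · refine ⟨⟨(a, p), gl, ha, h⟩, le_rfl, ?_, fun u v huv h1 h2 => ?_⟩
      · simp only; linarith
      · have := hm u v huv h1 h2
        simp only; linarith
    · refine ⟨⟨(q, b), gr, h, hb⟩, ?_, le_rfl, fun u v huv h1 h2 => ?_⟩
      · simp only; linarith
      · have := hm u v huv h1 h2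
        simp only; linarith
  choose nx h1 h2 h3 using next
  let s : ℕ → {x : ℝ × ℝ // Good K τ x.1 x.2 ∧ x.1 ≤ x₀ ∧ x₀ ≤ x.2} :=
    fun n => nx^[n] ⟨(l, r), hG, hl, hr⟩
  have hs : ∀ n, s (n + 1) = nx (s n) := fun n => Function.iterate_succ_apply' _ _ _
  let u : ℕ → ℝ := fun n => (s n).1.1
  let v : ℕ → ℝ := fun n => (s n).1.2
  have hu : Monotone u := monotone_nat_of_le_succ fun n => by
    change (s n).1.1 ≤ (s (n + 1)).1.1
    rw [hs]; exact h1 _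
  have hv : Antitone v := antitone_nat_of_succ_le fun n => by
    change (s (n + 1)).1.2 ≤ (s n).1.2
    rw [hs]; exact h2 _
  have hub : BddAbove (range u) := ⟨x₀, by rintro _ ⟨n, rfl⟩; exact (s n).2.2.1⟩
  have hvb : BddBelow (range v) := ⟨x₀, by rintro _ ⟨n, rfl⟩; exact (s n).2.2.2⟩
  have tu := tendsto_atTop_ciSup hu hub
  have tv := tendsto_atTop_ciInf hv hvb
  set U := ⨆ n, u n
  set W := ⨅ n, v n
  have UK : U ∈ K := hK.mem_of_tendsto tu (Eventually.of_forall fun n => (s n).2.1.1)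
  have WK : W ∈ K := hK.mem_of_tendsto tv (Eventually.of_forall fun n => (s n).2.1.2.1)
  have hUW : η ≤ W - U := ge_of_tendsto (tv.sub tu) (Eventually.of_forall fun n =>
    H _ _ (s n).2.1 (s n).2.2.1 (s n).2.2.2)
  have hUW' : U < W := by linarith
  obtain ⟨z, hz, hz2⟩ := isTotallyDisconnected_iff_lt.1 hd U UK W WK hUW'
  obtain ⟨a, b, gab, a1, a2, -⟩ := find hK UK WK hUW'.le (fun x => x - z)
    (by fun_prop) (fun x _ y _ h => by simpa using h) (by linarith [hz2.1]) (by linarith [hz2.2])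
    (fun x hx _ h => hz (sub_eq_zero.1 h ▸ hx))
  have hab := sub_pos.2 gab.2.2.1
  have hind : ∀ n : ℕ, v n - u n + n * (b - a) ≤ v 0 - u 0 := by
    intro n
    induction n with
    | zero => simp
    | succ n ih =>
      have h4 := h3 (s n) a b gab ((le_ciSup hub n).trans a1) (a2.trans (ciInf_le hvb n))
      have h5 : v (n + 1) - u (n + 1) + (b - a) ≤ v n - u n := by
        change (s (n + 1)).1.2 - (s (n + 1)).1.1 + (b - a) ≤ (s n).1.2 - (s n).1.1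
        rw [hs]; exact h4
      push_cast
      linarith
  obtain ⟨n, hn⟩ := exists_nat_gt ((v 0 - u 0) / (b - a))
  rw [div_lt_iff₀ hab] at hn
  have h6 := hind n
  have h7 : 0 < v n - u n := sub_pos.2 (s n).2.1.2.2.1
  linarith

/-- positive slope -/
theorem core (K : Set ℝ) (hKc : IsCompact K) (hKd : IsTotallyDisconnected K) (τ : ℝ) (hτ : 1 < τ)
    (hS : Sep K τ) (hG : Good K τ (sInf K) (sSup K)) (f₀ : ℝ → ℝ) (m : ℝ)
    (hf : HasStrictDerivAt f₀ m 0) (f0' : f₀ 0 = 0) (f1 : 0 < m) (x₀ : ℝ) (hx₀ : x₀ ∈ K) (δ : ℝ)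
    (hδ : 0 < δ) :
    ∃ x t : ℝ, 0 < t ∧ t < δ ∧ |x - x₀| < δ ∧ x - t ∈ K ∧ x ∈ K ∧ x + f₀ t ∈ K := by
  have hcl := hKc.isClosed
  have τ0 : 0 < τ := by linarith
  have τ2 : 1 < τ ^ 2 := by nlinarith
  have ev : ∀ a b : ℝ → ℝ, Continuous a → Continuous b → a 0 < b 0 →
      ∀ᶠ ε in 𝓝[>] (0:ℝ), a ε < b ε := fun a b ha hb h =>
    nhdsWithin_le_nhds (ha.continuousAt.eventually_lt hb.continuousAt h)
  obtain ⟨ε, ⟨⟨⟨⟨h1, h2⟩, h3⟩, h4⟩, h5⟩, ε0⟩ :=
    ((((((ev (fun ε => ε) (fun _ => m) (by fun_prop) (by fun_prop) f1).and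
    (ev (fun ε => (1 + (m + ε)) * 1) (fun ε => τ ^ 2 * ((1 + (m - ε)) * 1)) (by fun_prop)
      (by fun_prop) (by nlinarith))).and
    (ev (fun ε => (m + ε) * (1 + (m + ε))) (fun ε => τ ^ 2 * ((m - ε) * (1 + (m - ε))))
      (by fun_prop) (by fun_prop) (by nlinarith [mul_pos f1 f1]))).and
    (ev (fun ε => 1 + ε) (fun _ => τ) (by fun_prop) (by fun_prop) (by simpa using hτ))).and
    (ev (fun _ => 1) (fun ε => (1 - ε) * τ) (by fun_prop) (by fun_prop)
      (by simpa using hτ))).and self_mem_nhdsWithin).exists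
  have ε1 : 0 < ε := ε0
  obtain ⟨η₀, η₀0, hη₀⟩ := Metric.eventually_nhds_iff.1 (hf.isLittleO.def ε1)
  -- the rate on a small interval
  have rate₀ : ∀ x y, |x| < η₀ → |y| < η₀ → x ≤ y →
      (m - ε) * (y - x) ≤ f₀ y - f₀ x ∧ f₀ y - f₀ x ≤ (m + ε) * (y - x) := by
    intro x y hx hy hxy
    have h := @hη₀ (y, x) (by
      rw [Prod.dist_eq]
      simpa [Real.dist_eq] using ⟨hy, hx⟩)
    simp only [ContinuousLinearMap.smulRight_apply, ContinuousLinearMap.one_apply, smul_eq_mul,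
      Real.norm_eq_abs, ContinuousLinearMap.toSpanSingleton_apply] at h
    rw [abs_of_nonneg (sub_nonneg.2 hxy), abs_le] at h
    constructor <;> nlinarith [h.1, h.2]
  set c := η₀ / 2 with hc
  have hc0 : 0 < c := by positivity
  let cl : ℝ → ℝ := fun t => max (-c) (min c t)
  have hcl' : ∀ t, |cl t| ≤ c := fun t => by
    rw [abs_le]
    exact ⟨le_max_left _ _, max_le (by linarith) (min_le_left _ _)⟩
  have hcleq : ∀ t, |t| < c → cl t = t := fun t ht => by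
    rw [abs_lt] at ht
    simp only [cl]
    rw [min_eq_right ht.2.le, max_eq_right ht.1.le]
  let f : ℝ → ℝ := fun t => f₀ (cl t)
  have hfe : ∀ t, |t| < c → f t = f₀ t := fun t ht => by simp only [f]; rw [hcleq t ht]
  have hcf : Continuous f := by
    have hcon : ContinuousOn f₀ (Icc (-c) c) := by
      have hL : LipschitzOnWith (Real.toNNReal (m + ε)) f₀ (Icc (-c) c) := by
        apply LipschitzOnWith.of_dist_le_mul
        intro x hx y hy
        have hx' : |x| < η₀ := by rw [abs_lt]; constructor <;> linarith [hx.1, hx.2]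
        have hy' : |y| < η₀ := by rw [abs_lt]; constructor <;> linarith [hy.1, hy.2]
        rw [Real.coe_toNNReal _ (by linarith), Real.dist_eq, Real.dist_eq]
        rcases le_total x y with h | h
        · have h6 := rate₀ x y hx' hy' h
          have h7 : 0 ≤ (m - ε) * (y - x) := mul_nonneg (by linarith) (by linarith)
          rw [abs_sub_comm, abs_sub_comm x y, abs_of_nonneg (by linarith [h6.1]),
            abs_of_nonneg (by linarith)]
          exact h6.2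
        · have h6 := rate₀ y x hy' hx' h
          have h7 : 0 ≤ (m - ε) * (x - y) := mul_nonneg (by linarith) (by linarith)
          rw [abs_of_nonneg (by linarith [h6.1]), abs_of_nonneg (by linarith)]
          exact h6.2
      exact hL.continuousOn
    exact hcon.comp_continuous (by fun_prop) (fun t => abs_le.1 (hcl' t))
  set η := min c δ with hη
  have η0 : 0 < η := lt_min hc0 hδ
  have f0 : f 0 = 0 := by rw [hfe 0 (by simpa using hc0), f0']
  have rate : ∀ x y, |x| < η → |y| < η → x ≤ y →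
      (m - ε) * (y - x) ≤ f y - f x ∧ f y - f x ≤ (m + ε) * (y - x) := by
    intro x y hx hy hxy
    have hx' : |x| < c := hx.trans_le (min_le_left _ _)
    have hy' : |y| < c := hy.trans_le (min_le_left _ _)
    rw [hfe x hx', hfe y hy']
    exact rate₀ x y (by linarith) (by linarith) hxy
  obtain ⟨l, r, g0, hlx, hxr, hlr⟩ := small_at hcl hKd τ0 hS hG hx₀
    (csInf_le hKc.bddBelow hx₀) (le_csSup hKc.bddAbove hx₀) η0
  have hηδ : η ≤ δ := min_le_right _ _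
  have hηc : η ≤ c := min_le_left _ _
  have near : ∀ x, l ≤ x → x ≤ r → |x - x₀| < δ := fun x h h' => by
    rw [abs_lt]; constructor <;> linarith
  obtain ⟨p, q, g, t1, t2, gl, gr, -⟩ := split hcl hKd τ0 hS g0
  have pq := sub_pos.2 g.2.2.1
  have pq2 := mul_pos τ0 pq
  have z0 : |(0:ℝ)| < η := by simpa using η0
  rcases le_total m 1 with hm | hm
  · have ab : ∀ x ∈ Icc q r, |x - p| < η := fun x hx => by
      rw [abs_lt]; constructor <;> linarith [hx.1, hx.2]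
    have u1 := rate 0 _ z0 (ab q ⟨le_rfl, gr.2.2.1.le⟩) pq.le
    have u2 := rate 0 _ z0 (ab r ⟨gr.2.2.1.le, le_rfl⟩) (by linarith)
    obtain ⟨x, xK, xi, b, bK, -, e⟩ := gaplemma hcl τ0 hS gr (F := fun x b => x + f (x - p) - b)
      (by fun_prop) (by linarith) one_pos h2
      (fun v _ x hx y hy hxy => by
        have := rate _ _ (ab x hx) (ab y hy) (by linarith)
        constructor <;> simp only <;> linarith [this.1, this.2])
      (fun u _ x _ y _ hxy => by constructor <;> simp only <;> linarith)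
      (by nlinarith [u1.1]) (by nlinarith [u1.2]) (by nlinarith [u2.1])
    have hxp := ab x xi
    refine ⟨x, x - p, by linarith [xi.1], by linarith [(abs_lt.1 hxp).2], near x ?_ xi.2,
      by simpa using g.1, xK, ?_⟩
    · linarith [xi.1]
    · rw [← hfe (x - p) (by linarith)]
      rwa [sub_eq_zero.1 e]
  · have ab : ∀ x ∈ Icc l p, ∀ a ∈ Icc l p, |x - a| < η := fun x hx a ha => by
      rw [abs_lt]; constructor <;> linarith [hx.1, hx.2, ha.1, ha.2]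
    have u1 := rate 0 _ z0 (ab p ⟨gl.2.2.1.le, le_rfl⟩ l ⟨le_rfl, gl.2.2.1.le⟩) (by linarith)
    obtain ⟨a, aK, ai, x, xK, xi, e⟩ := gaplemma hcl τ0 hS gl
      (F := fun a x => q - x - f (x - a)) (by fun_prop) (by linarith) (by linarith) h3
      (fun v hv x hx y hy hxy => by
        have := rate _ _ (ab v hv y hy) (ab v hv x hx) (by linarith)
        constructor <;> simp only <;> linarith [this.1, this.2])
      (fun u hu x hx y hy hxy => by
        have := rate _ _ (ab x hx u hu) (ab y hy u hu) (by linarith)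
        constructor <;> simp only <;> linarith [this.1, this.2])
      (by simp only [sub_self, f0]; linarith)
      (by
        have k1 : (1 - ε) * (τ * (q - p)) ≤ (m - ε) * (p - l) := by
          gcongr
          linarith
        nlinarith [u1.1])
      (by simp only [sub_self, f0]; linarith)
    have hxa := ab x xi a ai
    refine ⟨x, x - a, ?_, by linarith [(abs_lt.1 hxa).2], near x xi.1 (by linarith [xi.2]),
      by simpa using aK, xK, ?_⟩
    · by_contra hh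
      have := (rate _ 0 (ab x xi a ai) z0 (not_lt.1 hh)).1
      nlinarith [xi.2]
    · rw [← hfe (x - a) (by linarith)]
      have : x + f (x - a) = q := by linarith
      rw [this]; exact g.2.1

lemma eventually_pos {g : ℝ → ℝ} {m : ℝ} (hg : HasStrictDerivAt g m 0) (g0 : g 0 = 0)
    (hm : 0 < m) : ∀ᶠ s in 𝓝[>] (0 : ℝ), 0 < g s := by
  have h := hasDerivAt_iff_tendsto_slope.1 hg.hasDerivAt
  have h1 : ∀ᶠ s in 𝓝[≠] (0 : ℝ), 0 < slope g 0 s := h.eventually (lt_mem_nhds hm)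
  have h2 : ∀ᶠ s in 𝓝[>] (0 : ℝ), 0 < slope g 0 s :=
    h1.filter_mono (nhdsWithin_mono _ fun s hs => ne_of_gt hs)
  filter_upwards [h2, self_mem_nhdsWithin] with s hs hs0
  rw [slope_def_field, g0, sub_zero, sub_zero] at hs
  have h3 : 0 < s := hs0
  by_contra hcon
  exact absurd hs (not_lt.2 (div_nonpos_of_nonpos_of_nonneg (not_lt.1 hcon) h3.le))

/-- Patterns near every point of `K`, for every slope different from `0` and `-1`. -/
theorem core' (K : Set ℝ) (hKc : IsCompact K) (hKd : IsTotallyDisconnected K) (τ : ℝ) (hτ : 1 < τ)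
    (hS : Sep K τ) (hG : Good K τ (sInf K) (sSup K)) (f : ℝ → ℝ) (m : ℝ)
    (hf : HasStrictDerivAt f m 0) (f0 : f 0 = 0) (hm0 : m ≠ 0) (hm1 : m ≠ -1) (x₀ : ℝ)
    (hx₀ : x₀ ∈ K) (δ : ℝ) (hδ : 0 < δ) :
    ∃ x t : ℝ, 0 < t ∧ t < δ ∧ |x - x₀| < δ ∧ x - t ∈ K ∧ x ∈ K ∧ x + f t ∈ K := by
  rcases lt_or_gt_of_ne hm0 with hneg | hpos
  swap
  · exact core K hKc hKd τ hτ hS hG f m hf f0 hpos x₀ hx₀ δ hδ
  rcases lt_or_gt_of_ne hm1 with h1 | h1
  · -- slope less than `-1`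
    let h : ℝ → ℝ := fun t => -f t - t
    have hh : HasStrictDerivAt h (-m - 1) 0 := hf.neg.sub (hasStrictDerivAt_id 0)
    have h0 : h 0 = 0 := by simp [h, f0]
    have hne : -m - 1 ≠ 0 := by linarith
    let g := hh.localInverse h (-m - 1) 0 hne
    have hg : HasStrictDerivAt g (-m - 1)⁻¹ 0 := by
      have := hh.to_localInverse hne
      rwa [h0] at this
    have g0 : g 0 = 0 := by
      have := (hh.hasStrictFDerivAt_equiv hne).localInverse_apply_image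
      rw [h0] at this
      exact this
    have hr : ∀ᶠ s in 𝓝 (0 : ℝ), h (g s) = s := by
      have := (hh.hasStrictFDerivAt_equiv hne).eventually_right_inverse
      rw [h0] at this
      exact this
    have hmpos : 0 < (-m - 1)⁻¹ := inv_pos.2 (by linarith)
    have hsmall : ∀ᶠ s in 𝓝 (0 : ℝ), |g s| < δ / 2 := by
      have hc := hg.hasDerivAt.continuousAt
      have := (hc.abs).eventually (gt_mem_nhds (show |g 0| < δ / 2 by rw [g0]; simpa using hδ))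
      exact this
    obtain ⟨δ', hδ', hall⟩ := mem_nhdsGT_iff_exists_Ioo_subset.1
      ((eventually_pos hg g0 hmpos).and ((hr.and hsmall).filter_mono nhdsWithin_le_nhds))
    obtain ⟨y, s, hs0, hs1, hy, hy1, hy2, hy3⟩ := core K hKc hKd τ hτ hS hG g _ hg g0 hmpos x₀ hx₀
      (min δ' (δ / 2)) (lt_min hδ' (by linarith))
    obtain ⟨k1, k2, k3⟩ := hall ⟨hs0, hs1.trans_le (min_le_left _ _)⟩
    have k4 : |y - x₀| < δ / 2 := hy.trans_le (min_le_right _ _)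
    rw [abs_lt] at k3 k4
    refine ⟨y + g s, g s, k1, by linarith, ?_, by simpa using hy2, hy3, ?_⟩
    · rw [abs_lt]; constructor <;> linarith
    · have k7 : -f (g s) - g s = s := k2
      have : y + g s + f (g s) = y - s := by linarith
      rw [this]
      exact hy1
  · -- slope between `-1` and `0`
    have h1' : 0 < 1 + m := by linarith
    let h : ℝ → ℝ := fun t => t + f t
    have hh : HasStrictDerivAt h (1 + m) 0 := (hasStrictDerivAt_id 0).add hf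
    have h0 : h 0 = 0 := by simp [h, f0]
    have hne : 1 + m ≠ 0 := h1'.ne'
    let g := hh.localInverse h (1 + m) 0 hne
    have hg : HasStrictDerivAt g (1 + m)⁻¹ 0 := by
      have := hh.to_localInverse hne
      rwa [h0] at this
    have g0 : g 0 = 0 := by
      have := (hh.hasStrictFDerivAt_equiv hne).localInverse_apply_image
      rw [h0] at this
      exact this
    have hr : ∀ᶠ s in 𝓝 (0 : ℝ), h (g s) = s := by
      have := (hh.hasStrictFDerivAt_equiv hne).eventually_right_inverse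
      rw [h0] at this
      exact this
    have hmpos : 0 < (1 + m)⁻¹ := inv_pos.2 h1'
    have hsmall : ∀ᶠ s in 𝓝 (0 : ℝ), |g s| < δ := by
      have hc := hg.hasDerivAt.continuousAt
      exact (hc.abs).eventually (gt_mem_nhds (show |g 0| < δ by rw [g0]; simpa using hδ))
    let G : ℝ → ℝ := fun s => -f (g s)
    have hG' : HasStrictDerivAt G (-(m * (1 + m)⁻¹)) 0 := by
      have hf' : HasStrictDerivAt f m (g 0) := by rw [g0]; exact hf
      exact (hf'.comp 0 hg).neg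
    have G0 : G 0 = 0 := by simp [G, g0, f0]
    have hGpos : 0 < -(m * (1 + m)⁻¹) := by
      have := mul_pos (neg_pos.2 hneg) hmpos
      linarith
    have hsmall' : ∀ᶠ s in 𝓝 (0 : ℝ), |G s| < δ / 2 := by
      have hc := hG'.hasDerivAt.continuousAt
      exact (hc.abs).eventually (gt_mem_nhds (show |G 0| < δ / 2 by rw [G0]; simpa using hδ))
    obtain ⟨δ', hδ', hall⟩ := mem_nhdsGT_iff_exists_Ioo_subset.1
      ((eventually_pos hg g0 hmpos).and
        ((hr.and (hsmall.and hsmall')).filter_mono nhdsWithin_le_nhds))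
    obtain ⟨y, s, hs0, hs1, hy, hy1, hy2, hy3⟩ := core K hKc hKd τ hτ hS hG G _ hG' G0 hGpos x₀ hx₀
      (min δ' (δ / 2)) (lt_min hδ' (by linarith))
    obtain ⟨k1, k2, k3, k5⟩ := hall ⟨hs0, hs1.trans_le (min_le_left _ _)⟩
    have k4 : |y - x₀| < δ / 2 := hy.trans_le (min_le_right _ _)
    rw [abs_lt] at k3 k4 k5
    have k6 : G s = -f (g s) := rfl
    have k7 : g s + f (g s) = s := k2
    refine ⟨y + G s, g s, k1, k3.2, ?_, ?_, hy3, ?_⟩
    · rw [abs_lt]; constructor <;> linarith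
    · have : y + G s - g s = y - s := by rw [k6]; linarith
      rw [this]
      exact hy1
    · have : y + G s + f (g s) = y := by rw [k6]; ring
      rw [this]
      exact hy2

end Pool.Agent.KS6_49.TP
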