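import Pool.Agent.KS6_49.TP.Loose

/-!
MP_4ff6b6_an: under the reading of Q1 in which a gap of length equal to `|G|` does not stop the
bridge of `G`, the statement fails, already for the linear function `f t = (91 / 50) t`.
-/

namespace Pool.Agent.KS6_49.TPE

open Set Pool.Agent.KS6_49.TPD

/-- Thickness with the convention that a bridge of a gap `G` ends at the nearest bounded gap of
length strictly greater than `|G|`. -/
noncomputable def strictBridgeThickness (K : Set ℝ) : ENNReal :=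
  bridgeThickness (fun g h => g < h) K

lemma isCompact_looseSet : IsCompact looseSet :=
  isCompact_Icc.of_isClosed_subset isClosed_looseSet looseSet_sub

/-- Points of the set are approximated by other points of the set. -/
lemma approx (n : ℕ) : ∀ x ∈ looseSet, ∃ y ∈ looseSet, y ≠ x ∧ |y - x| * 4 ^ n ≤ 1 := by
  induction n with
  | zero =>
    intro x hx
    have h := looseSet_sub hx
    by_cases h0 : x = 0
    · refine ⟨1, one_mem, by rw [h0]; norm_num, ?_⟩
      rw [h0]; norm_num
    · refine ⟨0, zero_mem, fun h => h0 h.symm, ?_⟩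
      rw [zero_sub, abs_neg, abs_of_nonneg h.1]
      linarith [h.2]
  | succ n ih =>
    intro x hx
    obtain ⟨ρ, κ, hc, h0, h1, h2⟩ := exists_child hx
    obtain ⟨y, hy, hyx, hd⟩ := ih _ h2
    have h4 := child_pos hc
    have hρ : ρ ≠ 0 := by linarith
    have e : ρ * ((y + κ) / ρ) - κ = y := by field_simp; ring
    refine ⟨(y + κ) / ρ, mem_of_child hc (by rw [e]; exact hy), ?_, ?_⟩
    · intro hcon
      apply hyx
      rw [← hcon, e]
    · have e2 : (y + κ) / ρ - x = (y - (ρ * x - κ)) / ρ := by field_simp; ring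
      rw [e2, abs_div, abs_of_pos (show (0 : ℝ) < ρ by linarith), div_mul_eq_mul_div,
        div_le_one (by linarith), pow_succ]
      have h5 : |y - (ρ * x - κ)| * (4 ^ n * 4) = |y - (ρ * x - κ)| * 4 ^ n * 4 := by ring
      rw [h5]
      linarith

lemma perfect_looseSet : Perfect looseSet := by
  refine ⟨isClosed_looseSet, ?_⟩
  intro x hx
  rw [accPt_iff_nhds]
  intro U hU
  obtain ⟨ε, hε, hb⟩ := Metric.mem_nhds_iff.1 hU
  obtain ⟨n, hn⟩ := pow_unbounded_of_one_lt (1 / ε) (by norm_num : (1 : ℝ) < 4)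
  obtain ⟨y, hy, hyx, hd⟩ := approx n x hx
  refine ⟨y, ⟨hb ?_, hy⟩, hyx⟩
  rw [Metric.mem_ball, Real.dist_eq]
  rw [div_lt_iff₀ hε] at hn
  have h4 : (0 : ℝ) < 4 ^ n := by positivity
  by_contra hcon
  push Not at hcon
  nlinarith

/-- Between two points of the set there is a point outside it. -/
lemma exists_hole : ∀ x ∈ looseSet, ∀ y ∈ looseSet, x < y → ∃ z, x < z ∧ z < y ∧ z ∉ looseSet := by
  have h38 : (3 / 8 : ℝ) ∉ looseSet := by
    intro h
    rcases trichotomy_loose h with h | h | h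
    · linarith [h.2.1]
    · linarith [h.1]
    · linarith [h.1]
  have h58 : (5 / 8 : ℝ) ∉ looseSet := by
    intro h
    rcases trichotomy_loose h with h | h | h
    · linarith [h.2.1]
    · linarith [h.2.1]
    · linarith [h.1]
  have key : ∀ n : ℕ, ∀ x ∈ looseSet, ∀ y ∈ looseSet, x < y → 1 < (y - x) * 4 ^ n →
      ∃ z, x < z ∧ z < y ∧ z ∉ looseSet := by
    intro n
    induction n with
    | zero =>
      intro x hx y hy hxy h
      exfalso
      simp only [pow_zero, mul_one] at h
      linarith [(looseSet_sub hx).1, (looseSet_sub hy).2]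
    | succ n ih =>
      intro x hx y hy hxy h
      -- descend into a common child
      have desc : ∀ ρ κ, IsChild ρ κ → 0 ≤ ρ * x - κ → ρ * y - κ ≤ 1 →
          ∃ z, x < z ∧ z < y ∧ z ∉ looseSet := by
        intro ρ κ hc h0 h1
        have h4 := child_pos hc
        have hρ : 0 < ρ := by linarith
        have hlt : ρ * x < ρ * y := mul_lt_mul_of_pos_left hxy hρ
        have hx' := mem_child hc hx h0 (by linarith)
        have hy' := mem_child hc hy (by linarith) h1
        have h7 : 0 < y - x := by linarith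
        have h8 : 4 * (y - x) ≤ ρ * (y - x) := mul_le_mul_of_nonneg_right h4 h7.le
        have h9 : (0 : ℝ) < 4 ^ n := by positivity
        obtain ⟨z, hz1, hz2, hz3⟩ := ih _ hx' _ hy' (by linarith) (by
          calc (1 : ℝ) < (y - x) * 4 ^ (n + 1) := h
            _ = 4 * (y - x) * 4 ^ n := by ring
            _ ≤ ρ * (y - x) * 4 ^ n := mul_le_mul_of_nonneg_right h8 h9.le
            _ = (ρ * y - κ - (ρ * x - κ)) * 4 ^ n := by ring)
        have hρ0 : ρ ≠ 0 := by linarith
        have e : ρ * ((z + κ) / ρ) - κ = z := by field_simp; ring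
        refine ⟨(z + κ) / ρ, ?_, ?_, ?_⟩
        · rw [lt_div_iff₀ hρ]; linarith
        · rw [div_lt_iff₀ hρ]; linarith
        · intro hz
          have := mem_child hc hz (by rw [e]; linarith) (by rw [e]; linarith)
          rw [e] at this
          exact hz3 this
      rcases trichotomy_loose hx with hx1 | hx1 | hx1 <;>
      rcases trichotomy_loose hy with hy1 | hy1 | hy1
      · exact desc 4 0 (Or.inl ⟨rfl, rfl⟩) (by linarith [hx1.1]) (by linarith [hy1.2.1])
      · exact ⟨3 / 8, by linarith [hx1.2.1], by linarith [hy1.1], h38⟩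
      · exact ⟨3 / 8, by linarith [hx1.2.1], by linarith [hy1.1], h38⟩
      · exfalso; linarith [hx1.1, hy1.2.1]
      · exact desc 10000 (9999 / 2) (Or.inr (Or.inl ⟨rfl, rfl⟩)) (by linarith [hx1.1])
          (by linarith [hy1.2.1])
      · exact ⟨5 / 8, by linarith [hx1.2.1], by linarith [hy1.1], h58⟩
      · exfalso; linarith [hx1.1, hy1.2.1]
      · exfalso; linarith [hx1.1, hy1.2.1]
      · exact desc 4 3 (Or.inr (Or.inr ⟨rfl, rfl⟩)) (by linarith [hx1.1]) (by linarith [hy1.2.1])
  intro x hx y hy hxy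
  have hpos : 0 < y - x := by linarith
  obtain ⟨n, hn⟩ := pow_unbounded_of_one_lt (1 / (y - x)) (by norm_num : (1 : ℝ) < 4)
  refine key n x hx y hy hxy ?_
  rw [div_lt_iff₀ hpos] at hn
  linarith

lemma totallyDisconnected_looseSet : IsTotallyDisconnected looseSet := by
  intro t ht htc x hx y hy
  have hoc : t.OrdConnected := htc.ordConnected
  by_contra hne
  rcases lt_or_gt_of_ne hne with h | h
  · obtain ⟨z, h1, h2, h3⟩ := exists_hole x (ht hx) y (ht hy) h
    exact h3 (ht (hoc.out hx hy ⟨h1.le, h2.le⟩))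
  · obtain ⟨z, h1, h2, h3⟩ := exists_hole y (ht hy) x (ht hx) h
    exact h3 (ht (hoc.out hy hx ⟨h1.le, h2.le⟩))

lemma isCantorSet_looseSet : IsCantorSet looseSet :=
  ⟨⟨0, zero_mem⟩, isCompact_looseSet, perfect_looseSet, totallyDisconnected_looseSet⟩

lemma one_lt_thickness : 1 < strictBridgeThickness looseSet := by
  have h1 : (1 : ENNReal) < ENNReal.ofReal (5000 / 4999) := by
    rw [← ENNReal.ofReal_one]
    exact (ENNReal.ofReal_lt_ofReal_iff (by norm_num)).2 (by norm_num)
  refine lt_of_lt_of_le h1 ?_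
  refine le_iInf fun u => le_iInf fun v => le_iInf fun hg => ?_
  obtain ⟨g1, g2, g3, g4⟩ := gap_bridges hg
  have hpos : 0 < v - u := by linarith [hg.2.2.1]
  refine le_min (ENNReal.ofReal_le_ofReal ?_) (ENNReal.ofReal_le_ofReal ?_)
  · rw [le_div_iff₀ hpos]
    have : v + 5000 / 4999 * (v - u) ≤ rightBridgeEnd (fun g h => g < h) looseSet u v := by
      refine le_csInf ⟨_, Or.inr rfl⟩ ?_
      rintro y (⟨b, hb, hva, hlen⟩ | hy)
      · linarith [g3 y b hb hva hlen]
      · rw [mem_singleton_iff] at hy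
        have : (1 : ℝ) ≤ sSup looseSet := le_csSup isCompact_looseSet.bddAbove one_mem
        linarith
    linarith
  · rw [le_div_iff₀ hpos]
    have : leftBridgeEnd (fun g h => g < h) looseSet u v ≤ u - 5000 / 4999 * (v - u) := by
      refine csSup_le ⟨_, Or.inr rfl⟩ ?_
      rintro y (⟨a, ha, hyu, hlen⟩ | hy)
      · linarith [g4 a y ha hyu hlen]
      · rw [mem_singleton_iff] at hy
        have : sInf looseSet ≤ (0 : ℝ) := csInf_le isCompact_looseSet.bddBelow zero_mem
        linarith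
    linarith

/-- Outside the hulls of the children there are no points of the set. -/
lemma not_mem_of {x : ℝ} (h1 : 1 / 4 < x ∧ x < 9999 / 20000 ∨ 10001 / 20000 < x ∧ x < 3 / 4) :
    x ∉ looseSet := by
  intro h
  rcases trichotomy_loose h with h' | h' | h' <;> rcases h1 with h1 | h1
  · linarith [h1.1, h'.2.1]
  · linarith [h1.1, h'.2.1]
  · linarith [h1.2, h'.1]
  · linarith [h1.1, h'.2.1]
  · linarith [h1.2, h'.1]
  · linarith [h1.2, h'.1]

/-- No pattern with the outer points in different children. -/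
lemma no_top_pattern {a x b : ℝ} (ha : a ∈ looseSet) (hx : x ∈ looseSet) (hb : b ∈ looseSet)
    (hax : a < x) (_hxb : x < b) (hm : 91 / 50 * (x - a) = b - x)
    (hdiff : (a ≤ 1 / 4 ∧ 9999 / 20000 ≤ b) ∨ (a ≤ 10001 / 20000 ∧ 3 / 4 ≤ b)) : False := by
  rcases trichotomy_loose ha with ⟨a1, a2, a3⟩ | ⟨a1, a2, a3⟩ | ⟨a1, a2, a3⟩ <;>
  rcases trichotomy_loose hb with ⟨b1, b2, b3⟩ | ⟨b1, b2, b3⟩ | ⟨b1, b2, b3⟩ <;>
  rcases trichotomy_loose hx with ⟨x1, x2, x3⟩ | ⟨x1, x2, x3⟩ | ⟨x1, x2, x3⟩ <;>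
  try (rcases hdiff with ⟨d1, d2⟩ | ⟨d1, d2⟩ <;> linarith)
  · -- `a`, `x` in the left child, `b` in the middle child
    rcases trichotomy_loose x3 with ⟨y1, y2, y3⟩ | ⟨y1, y2, y3⟩ | ⟨y1, y2, y3⟩
    · linarith
    · linarith
    rcases trichotomy_loose a3 with ⟨c1, c2, c3⟩ | ⟨c1, c2, c3⟩ | ⟨c1, c2, c3⟩
    swap
    · linarith
    swap
    · linarith
    have k1 := looseSet_sub c3
    rcases trichotomy_loose y3 with ⟨z1, z2, z3⟩ | ⟨z1, z2, z3⟩ | ⟨z1, z2, z3⟩
    swap
    · linarith [k1.2]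
    swap
    · linarith [k1.2]
    have k2 := looseSet_sub z3
    rcases trichotomy_loose c3 with ⟨e1, e2, e3⟩ | ⟨e1, e2, e3⟩ | ⟨e1, e2, e3⟩
    · linarith [k2.1]
    · exact not_mem_of (Or.inr ⟨by linarith, by linarith⟩) z3
    · linarith [k2.2]
  · -- `a` in the left child, `x` in the middle child, `b` in the right child
    rcases trichotomy_loose a3 with ⟨c1, c2, c3⟩ | ⟨c1, c2, c3⟩ | ⟨c1, c2, c3⟩
    · linarith
    · linarith
    rcases trichotomy_loose c3 with ⟨d1, d2, d3⟩ | ⟨d1, d2, d3⟩ | ⟨d1, d2, d3⟩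
    · linarith
    · linarith
    have k1 := looseSet_sub d3
    rcases trichotomy_loose b3 with ⟨e1, e2, e3⟩ | ⟨e1, e2, e3⟩ | ⟨e1, e2, e3⟩
    · linarith [k1.1, k1.2]
    · linarith [k1.1, k1.2]
    rcases trichotomy_loose e3 with ⟨f1, f2, f3⟩ | ⟨f1, f2, f3⟩ | ⟨f1, f2, f3⟩
    · linarith [k1.1, k1.2]
    · exact not_mem_of (Or.inr ⟨by linarith, by linarith⟩) d3
    · linarith [k1.1, k1.2]

theorem no_pattern {a x b : ℝ} (ha : a ∈ looseSet) (hx : x ∈ looseSet) (hb : b ∈ looseSet)
    (hax : a < x) (hm : 91 / 50 * (x - a) = b - x) : False := by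
  have key : ∀ n : ℕ, ∀ a ∈ looseSet, ∀ x ∈ looseSet, ∀ b ∈ looseSet, a < x →
      91 / 50 * (x - a) = b - x → 1 < (b - a) * 4 ^ n → False := by
    intro n
    induction n with
    | zero =>
      intro a ha x hx b hb hax hm h
      simp only [pow_zero, mul_one] at h
      linarith [(looseSet_sub ha).1, (looseSet_sub hb).2]
    | succ n ih =>
      intro a ha x hx b hb hax hm h
      have hxb : x < b := by linarith
      have desc : ∀ ρ κ, IsChild ρ κ → 0 ≤ ρ * a - κ → ρ * b - κ ≤ 1 → False := by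
        intro ρ κ hc h0 h1
        have h4 := child_pos hc
        have hρ : 0 < ρ := by linarith
        have hlt : ρ * a < ρ * x := mul_lt_mul_of_pos_left hax hρ
        have hlt2 : ρ * x < ρ * b := mul_lt_mul_of_pos_left hxb hρ
        have ha' := mem_child hc ha h0 (by linarith)
        have hx' := mem_child hc hx (by linarith) (by linarith)
        have hb' := mem_child hc hb (by linarith) h1
        have h7 : 0 < b - a := by linarith
        have h8 : 4 * (b - a) ≤ ρ * (b - a) := mul_le_mul_of_nonneg_right h4 h7.le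
        have h9 : (0 : ℝ) < 4 ^ n := by positivity
        refine ih _ ha' _ hx' _ hb' (by linarith) ?_ ?_
        · linear_combination ρ * hm
        · calc (1 : ℝ) < (b - a) * 4 ^ (n + 1) := h
            _ = 4 * (b - a) * 4 ^ n := by ring
            _ ≤ ρ * (b - a) * 4 ^ n := mul_le_mul_of_nonneg_right h8 h9.le
            _ = (ρ * b - κ - (ρ * a - κ)) * 4 ^ n := by ring
      rcases trichotomy_loose ha with ha1 | ha1 | ha1 <;>
      rcases trichotomy_loose hb with hb1 | hb1 | hb1
      · exact desc 4 0 (Or.inl ⟨rfl, rfl⟩) (by linarith [ha1.1]) (by linarith [hb1.2.1])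
      · exact no_top_pattern ha hx hb hax hxb hm (Or.inl ⟨ha1.2.1, hb1.1⟩)
      · exact no_top_pattern ha hx hb hax hxb hm (Or.inl ⟨ha1.2.1, by linarith [hb1.1]⟩)
      · linarith [ha1.1, hb1.2.1]
      · exact desc 10000 (9999 / 2) (Or.inr (Or.inl ⟨rfl, rfl⟩)) (by linarith [ha1.1])
          (by linarith [hb1.2.1])
      · exact no_top_pattern ha hx hb hax hxb hm (Or.inr ⟨ha1.2.1, hb1.1⟩)
      · linarith [ha1.1, hb1.2.1]
      · linarith [ha1.1, hb1.2.1]
      · exact desc 4 3 (Or.inr (Or.inr ⟨rfl, rfl⟩)) (by linarith [ha1.1]) (by linarith [hb1.2.1])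
  have hpos : 0 < b - a := by linarith
  obtain ⟨n, hn⟩ := pow_unbounded_of_one_lt (1 / (b - a)) (by norm_num : (1 : ℝ) < 4)
  refine key n a ha x hx b hb hax hm ?_
  rw [div_lt_iff₀ hpos] at hn
  linarith

theorem equalGaps : ∃ (K : Set ℝ) (m : ℝ), IsCantorSet K ∧ 1 < strictBridgeThickness K ∧ 0 < m ∧
    ∀ x t : ℝ, 0 < t → ¬ (x - t ∈ K ∧ x ∈ K ∧ x + m * t ∈ K) := by
  refine ⟨looseSet, 91 / 50, isCantorSet_looseSet, one_lt_thickness, by norm_num, ?_⟩
  rintro x t ht ⟨h1, h2, h3⟩
  exact no_pattern h1 h2 h3 (by linarith) (by ring)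

end Pool.Agent.KS6_49.TPE
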